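import Mathlib

/-!
# Branching internal DLA on `Z^3`: the process
-/

namespace Pool.Agent.K1H2.BI

open MeasureTheory ProbabilityTheory Filter
open scoped ENNReal Topology BigOperators

/-- sites of the lattice `Z^3` -/
abbrev Site := Fin 3 → ℤ

/-- the six directions -/
abbrev Dir := Fin 3 × Bool

/-- the unit vector of a direction -/
def stepOf (e : Dir) : Site := Pi.single e.1 (if e.2 then 1 else -1)

/-- Euclidean norm of a site -/
noncomputable def len (x : Site) : ℝ := Real.sqrt (∑ i, (x i : ℝ) ^ 2)

/-- State of the process: the set `A` of occupied sites, the list `L` of the positions of the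
active particles, and the number `t` of branching random walks launched so far, plus one
unit: `t = 1` for the first branching random walk, which is run with `A(1) = {0}`. -/
structure State where
  A : Finset Site
  L : List Site
  t : ℕ

instance : MeasurableSpace State := ⊤

instance : MeasurableSpace (List Dir) := ⊤

/-- What is drawn for one branching event: the list of the steps of the children, and a number
used to choose the particle whose clock rings. -/
abbrev Inst := List Dir × ℝ

/-- The children of a particle at `x` arrive one after the other: a child that arrives at an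
unoccupied site stops there and the site joins the occupied set, the others are active. -/
def arrive (x : Site) : List Dir → Finset Site × List Site → Finset Site × List Site
  | [], p => p
  | e :: es, p => arrive x es
      (if x + stepOf e ∈ p.1 then (p.1, (x + stepOf e) :: p.2)
        else (insert (x + stepOf e) p.1, p.2))

/-- the index of the particle whose clock rings -/
noncomputable def pick (L : List Site) (u : ℝ) : ℕ := min ⌊u * L.length⌋₊ (L.length - 1)

/-- the position of the particle whose clock rings -/
noncomputable def who (s : State) (i : Inst) : Site := s.L.getD (pick s.L i.2) 0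

/-- occupied set and active particles after a branching event -/
noncomputable def raw (s : State) (i : Inst) : Finset Site × List Site :=
  arrive (who s i) i.1 (s.A, s.L.eraseIdx (pick s.L i.2))

/-- One branching event. If no active particle is left, the branching random walk has ended and
the next one is launched from the origin. -/
noncomputable def event (s : State) (i : Inst) : State :=
  if (raw s i).2 = [] then ⟨(raw s i).1, [0], s.t + 1⟩ else ⟨(raw s i).1, (raw s i).2, s.t⟩

/-- the process -/
noncomputable def X (ins : ℕ → Inst) : ℕ → State
  | 0 => ⟨{0}, [0], 1⟩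
  | n + 1 => event (X ins n) (ins n)

/-- number of branching events before the `t`-th branching random walk is launched -/
noncomputable def T (ins : ℕ → Inst) (t : ℕ) : ℕ := sInf {n | t ≤ (X ins n).t}

/-- the aggregate `A(t)` -/
noncomputable def agg (ins : ℕ → Inst) (t : ℕ) : Finset Site := (X ins (T ins t)).A

/-- law of the steps of the children: `k` is drawn from `ν`, then `k` independent steps -/
noncomputable def kids (ν : PMF ℕ) : PMF (List Dir) :=
  ν.bind fun k => (PMF.uniformOfFintype (Fin k → Dir)).map List.ofFn

/-- law of what is drawn for one branching event -/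
noncomputable def law (ν : PMF ℕ) : Measure Inst :=
  (kids ν).toMeasure.prod (volume.restrict (Set.Icc (0 : ℝ) 1))

/-- radius of the ball of volume `t` -/
noncomputable def rad (t : ℕ) : ℝ := (3 * t / (4 * Real.pi)) ^ (1 / 3 : ℝ)

/-- inner deviation of a finite set from the ball of volume `t` -/
noncomputable def devI (A : Finset Site) (t : ℕ) : ℝ :=
  sInf {δ : ℝ | 0 ≤ δ ∧ ∀ z : Site, len z < rad t - δ → z ∈ A}

/-- outer deviation of a finite set from the ball of volume `t` -/
noncomputable def devO (A : Finset Site) (t : ℕ) : ℝ :=
  sInf {δ : ℝ | 0 ≤ δ ∧ ∀ z ∈ A, len z < rad t + δ}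

/-! ### auxiliary notions for the proof -/

/-- invariant of the states that occur -/
def Inv (s : State) : Prop := s.L ≠ [] ∧ (∀ x ∈ s.L, x ∈ s.A) ∧ (0 : Site) ∈ s.A ∧ 1 ≤ s.t

/-- the value of the underlying random walk -/
noncomputable def S (s : State) : ℝ := (s.A.card : ℝ) + s.L.length - s.t - 1

/-- squared norm -/
noncomputable def nsq (x : Site) : ℝ := ∑ i, (x i : ℝ) ^ 2

/-- truncated squared norm -/
noncomputable def phi (b : ℝ) (x : Site) : ℝ := min (nsq x) b

/-- total truncated squared norm -/
noncomputable def Y (b : ℝ) (s : State) : ℝ :=
  (∑ x ∈ s.A, phi b x) + (s.L.map (phi b)).sum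

/-- potential of a particle in the ball of radius `R` -/
noncomputable def pot (R : ℝ) (x : Site) : ℝ := max ((R + 1) ^ 2 - nsq x) 0

/-- total potential until the `m`-th launch -/
noncomputable def G (R : ℝ) (m : ℕ) (s : State) : ℝ :=
  (s.L.map (pot R)).sum + ((m : ℝ) - s.t) * (R + 1) ^ 2

/-- the process stopped when a state of `Fr` is met, started at the `n`-th event; the second
component is the number of events -/
noncomputable def frz (Fr : Set State) (ins : ℕ → Inst) (n : ℕ) : ℕ → State × ℕ
  | 0 => (X ins n, n)
  | k + 1 => open Classical in
      if (frz Fr ins n k).1 ∈ Fr then frz Fr ins n k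
      else (event (frz Fr ins n k).1 (ins (n + k)), n + k + 1)

/-- second moment of `k - 1` -/
noncomputable def var (ν : PMF ℕ) : ℝ := ∑' k : ℕ, (ν k).toReal * ((k : ℝ) - 1) ^ 2

/-- critical offspring law with finite second moment, not deterministic -/
structure Crit (ν : PMF ℕ) : Prop where
  mean : ∑' k : ℕ, ν k * (k : ℝ≥0∞) = 1
  sq : ∑' k : ℕ, ν k * (k : ℝ≥0∞) ^ 2 ≠ ⊤
  nd : ν 1 ≠ 1

/-- the instructions are independent with law `law ν` -/
structure Drawn {Ω : Type*} [MeasurableSpace Ω] (P : Measure Ω) (ν : PMF ℕ)
    (ins : ℕ → Ω → Inst) : Prop where
  meas : ∀ n, Measurable (ins n)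
  law : ∀ n, P.map (ins n) = law ν
  indep : iIndepFun ins P

/-- events determined by the first `n` instructions -/
@[reducible] def past {Ω : Type*} (ins : ℕ → Ω → Inst) (n : ℕ) : MeasurableSpace Ω :=
  ⨆ j ∈ Finset.range n, MeasurableSpace.comap (ins j) inferInstance

end Pool.Agent.K1H2.BI
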