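import Pool.Agent.K1H2.BI.Stm

/-!
# Branching internal DLA on `Z^3`: assembly
-/

namespace Pool.Agent.K1H2.BI

open MeasureTheory ProbabilityTheory Filter
open scoped ENNReal Topology BigOperators

universe u

/-- The final statement. -/
def S_FINAL : Prop := ∀ (Ω : Type u) [MeasurableSpace Ω] (P : Measure Ω) [IsProbabilityMeasure P]
  (ν : PMF ℕ) (ins : ℕ → Ω → Inst), Crit ν → Drawn P ν ins →
  (∀ᵐ ω ∂P, ∀ t : ℕ, 1 ≤ t → ∃ n, (X (at' ins ω) n).t = t) ∧
  (∀ᵐ ω ∂P, ∀ K : ℝ,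
    (∃ᶠ t : ℕ in atTop, K * Real.sqrt (rad t) ≤ devI (agg (at' ins ω) t) t) ∧
    (∃ᶠ t : ℕ in atTop, K * Real.sqrt (rad t) ≤ devO (agg (at' ins ω) t) t)) ∧
  (∀ K : ℝ, ∃ p : ℝ, 0 < p ∧ ∀ᶠ t : ℕ in atTop,
    p ≤ P.real {ω | K * Real.sqrt (rad t) ≤ devO (agg (at' ins ω) t) t} ∧
    p ≤ P.real {ω | K * Real.sqrt (rad t) ≤ devI (agg (at' ins ω) t) t ∨
      rad t ≤ devO (agg (at' ins ω) t) t})

lemma tendsto_rad : Tendsto (fun t : ℕ => rad t) atTop atTop := by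
  unfold rad
  have h1 : Tendsto (fun t : ℕ => 3 * (t : ℝ) / (4 * Real.pi)) atTop atTop := by
    have : (fun t : ℕ => 3 * (t : ℝ) / (4 * Real.pi)) = fun t : ℕ => (3 / (4 * Real.pi)) * (t : ℝ) := by
      funext t; ring
    rw [this]
    exact Tendsto.const_mul_atTop (by positivity) tendsto_natCast_atTop_atTop
  exact (tendsto_rpow_atTop (by norm_num)).comp h1

/-- for large `t` the radius is at least `K` times its square root -/
lemma rad_ge (K : ℝ) : ∀ᶠ t : ℕ in atTop, K * Real.sqrt (rad t) ≤ rad t := by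
  filter_upwards [tendsto_rad.eventually_ge_atTop (K ^ 2 + 1)] with t ht
  have h0 : 0 ≤ rad t := by nlinarith [sq_nonneg K]
  have h1 : |K| ≤ Real.sqrt (rad t) := by
    rw [← Real.sqrt_sq_eq_abs]
    exact Real.sqrt_le_sqrt (by linarith)
  calc K * Real.sqrt (rad t) ≤ |K| * Real.sqrt (rad t) :=
        mul_le_mul_of_nonneg_right (le_abs_self K) (Real.sqrt_nonneg _)
    _ ≤ Real.sqrt (rad t) * Real.sqrt (rad t) :=
        mul_le_mul_of_nonneg_right h1 (Real.sqrt_nonneg _)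
    _ = rad t := Real.mul_self_sqrt h0

theorem t_FINAL (hinner : S_INNER.{u}) (hspread : S_SPREAD.{u}) (hlevy : S_LEVY.{u})
    (hagg : S_AGG.{u}) (hdev : S_DEV) : S_FINAL.{u} := by
  intro Ω _ P _ ν ins hc hd
  obtain ⟨hreach, hin⟩ := hinner Ω P ν ins hc hd
  obtain ⟨hdev1, hdev2, hdev3⟩ := hdev
  have main : ∀ K : ℝ, ∃ p : ℝ, 0 < p ∧ ∀ (m : ℕ) (H : Set Ω), MeasurableSet[past ins m] H →
      ∀ᶠ t : ℕ in atTop,
      p * P.real H ≤ P.real (H ∩ {ω | K * Real.sqrt (rad t) ≤ devO (agg (at' ins ω) t) t}) ∧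
      p * P.real H ≤ P.real (H ∩ {ω | K * Real.sqrt (rad t) ≤ devI (agg (at' ins ω) t) t ∨
        rad t ≤ devO (agg (at' ins ω) t) t}) := by
    intro K
    obtain ⟨K1, hK1, h1⟩ := hdev1 K
    obtain ⟨K2, hK2, h2⟩ := hdev2 K
    obtain ⟨p, hp, hs⟩ := hspread Ω P ν ins hc hd (max K1 K2)
    refine ⟨p, hp, fun m H hH => ?_⟩
    filter_upwards [hs m H hH, h1, h2, rad_ge K] with t ht h1t h2t hrt
    have hpow : (0 : ℝ) ≤ (t : ℝ) ^ (5 / 6 : ℝ) := Real.rpow_nonneg (Nat.cast_nonneg t) _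
    refine ⟨ht.1.trans (measureReal_mono (Set.inter_subset_inter_right H ?_)),
      ht.2.trans (measureReal_mono (Set.inter_subset_inter_right H ?_))⟩
    · rintro ω (h | h)
      · exact hrt.trans (hdev3 t _ h)
      · refine h2t _ (le_trans ?_ h)
        have := mul_le_mul_of_nonneg_right (le_max_right K1 K2) hpow
        linarith
    · rintro ω (h | h)
      · exact Or.inr (hdev3 t _ h)
      · refine Or.inl (h1t _ (h.trans ?_))
        have := mul_le_mul_of_nonneg_right (le_max_left K1 K2) hpow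
        linarith
  refine ⟨hreach, ?_, ?_⟩
  · have hout : ∀ᵐ ω ∂P, ∀ K : ℕ, ∃ᶠ t : ℕ in atTop,
        (K : ℝ) * Real.sqrt (rad t) ≤ devO (agg (at' ins ω) t) t := by
      rw [ae_all_iff]
      intro K
      obtain ⟨p, hp, hm⟩ := main K
      exact hlevy Ω P ν ins hd
        (fun t => {ω | (K : ℝ) * Real.sqrt (rad t) ≤ devO (agg (at' ins ω) t) t})
        (fun t => hagg Ω P ν ins hd t {A | (K : ℝ) * Real.sqrt (rad t) ≤ devO A t}) p hp
        (fun m H hH => (hm m H hH).mono fun t ht => ht.1)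
    filter_upwards [hin, hout] with ω h1 h2 K
    refine ⟨h1 K, ?_⟩
    obtain ⟨N, hN⟩ := exists_nat_ge K
    refine (h2 N).mono fun t ht => le_trans ?_ ht
    exact mul_le_mul_of_nonneg_right hN (Real.sqrt_nonneg _)
  · intro K
    obtain ⟨p, hp, hm⟩ := main K
    refine ⟨p, hp, ?_⟩
    have := hm 0 Set.univ (@MeasurableSet.univ Ω (past ins 0))
    filter_upwards [this] with t ht
    simpa using ht

end Pool.Agent.K1H2.BI
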