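import Pool.Agent.K1H2.BI.Stm

/-!
# Events with conditional probabilities bounded below occur infinitely often
-/

namespace Pool.Agent.K1H2.BI

open MeasureTheory ProbabilityTheory Filter
open scoped ENNReal Topology BigOperators

universe u

theorem t_LEVY : S_LEVY.{u} := by
  intro Ω mΩ P _ ν ins hd E hE p hp hH
  have hle : ∀ n, past ins n ≤ mΩ := fun n => iSup₂_le fun j _ => (hd.meas j).comap_le
  have hmono : Monotone fun n => past ins n := by
    intro n m hnm
    exact iSup₂_le fun j hj => le_iSup₂_of_le j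
      (Finset.mem_range.2 ((Finset.mem_range.1 hj).trans_le hnm)) le_rfl
  let ℱ : Filtration ℕ mΩ := ⟨fun n => past ins n, hmono, hle⟩
  have hsup : (⨆ n, past ins n) ≤ mΩ := iSup_le hle
  set F : Set Ω := {ω | ∃ᶠ t in atTop, ω ∈ E t} with hFdef
  have hFeq : F = ⋂ N : ℕ, ⋃ t ∈ Set.Ici N, E t := by
    ext ω
    simp only [hFdef, Set.mem_ofPred_eq, frequently_atTop, Set.mem_iInter, Set.mem_iUnion,
      Set.mem_Ici, exists_prop]
  have hF : MeasurableSet[⨆ n, past ins n] F := by
    rw [hFeq]
    exact MeasurableSet.iInter fun N => MeasurableSet.biUnion (Set.to_countable _) fun t _ => hE t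
  have key : ∀ (m : ℕ) (H : Set Ω), MeasurableSet[past ins m] H →
      p * P.real H ≤ P.real (H ∩ F) := by
    intro m H hHm
    have h1 : H ∩ F = ⋂ N : ℕ, (H ∩ ⋃ t ∈ Set.Ici N, E t) := by
      rw [hFeq, Set.inter_iInter]
    have hmeas : ∀ N : ℕ, MeasurableSet (H ∩ ⋃ t ∈ Set.Ici N, E t) := fun N =>
      (hle m _ hHm).inter (MeasurableSet.biUnion (Set.to_countable _) fun t _ => hsup _ (hE t))
    have hanti : Antitone fun N : ℕ => (H ∩ ⋃ t ∈ Set.Ici N, E t) := by
      intro N M hNM
      exact Set.inter_subset_inter_right H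
        (Set.biUnion_subset_biUnion_left (Set.Ici_subset_Ici.2 hNM))
    have ht := tendsto_measure_iInter_atTop (μ := P) (fun N => (hmeas N).nullMeasurableSet)
      hanti ⟨0, measure_ne_top _ _⟩
    rw [← h1] at ht
    have ht' : Tendsto (fun N : ℕ => P.real (H ∩ ⋃ t ∈ Set.Ici N, E t)) atTop
        (𝓝 (P.real (H ∩ F))) := (ENNReal.tendsto_toReal (measure_ne_top _ _)).comp ht
    refine ge_of_tendsto' ht' fun N => ?_
    obtain ⟨t, h, htN⟩ := ((hH m H hHm).and (eventually_ge_atTop N)).exists
    refine h.trans (measureReal_mono (Set.inter_subset_inter_right H ?_))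
    exact Set.subset_biUnion_of_mem (u := fun t => E t) htN
  let g : Ω → ℝ := F.indicator fun _ => (1 : ℝ)
  have hg : Integrable g P := (integrable_const (1 : ℝ)).indicator (hsup _ hF)
  have hgm : StronglyMeasurable[⨆ n, past ins n] g :=
    (stronglyMeasurable_const).indicator hF
  have hbd : ∀ m, ∀ᵐ ω ∂P, p ≤ (P[g | ℱ m]) ω := by
    intro m
    have hint : Integrable (P[g | ℱ m]) (P.trim (ℱ.le m)) :=
      integrable_condExp.trim (ℱ.le m) stronglyMeasurable_condExp
    have hc : Integrable (fun _ : Ω => p) (P.trim (ℱ.le m)) := by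
      have : IsFiniteMeasure (P.trim (ℱ.le m)) := isFiniteMeasure_trim (ℱ.le m)
      exact integrable_const p
    refine ae_le_of_ae_le_trim (hm := ℱ.le m) ?_
    refine ae_le_of_forall_setIntegral_le hc hint fun s hs _ => ?_
    rw [← setIntegral_trim (ℱ.le m) stronglyMeasurable_condExp hs,
      ← setIntegral_trim (ℱ.le m) stronglyMeasurable_const hs,
      setIntegral_condExp (ℱ.le m) hg hs, setIntegral_const]
    have h2 : ∫ x in s, g x ∂P = P.real (s ∩ F) := by
      rw [integral_indicator (hsup _ hF), Measure.restrict_restrict (hsup _ hF)]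
      simp [Set.inter_comm, Measure.real]
    rw [h2, smul_eq_mul, mul_comm]
    exact key m s hs
  have hconv := hg.tendsto_ae_condExp (ℱ := ℱ) hgm
  filter_upwards [hconv, ae_all_iff.2 hbd] with ω h1 h2
  by_contra hn
  have h3 : g ω = 0 := Set.indicator_of_notMem hn _
  have := ge_of_tendsto' h1 h2
  rw [h3] at this
  linarith

end Pool.Agent.K1H2.BI
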