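import Pool.Agent.K1H2.BI.Final
import Pool.Agent.K1H2.BI.Levy
import Pool.Agent.K1H11.BI.Path
import Pool.Agent.K1H99.BI.Frz
import Pool.Agent.K1H8.BI.Meas
import Pool.Agent.K1H26.BI.Kids
import Pool.Agent.K1H94.BI.One
import Pool.Agent.K1H96.BI.Lya
import Pool.Agent.K1H96.BI.One4
import Pool.Agent.K1H28.BIW.Walk
import Pool.Agent.K1H92.BI.Lat
import Pool.Agent.K1H92.BI.HighP
import Pool.Agent.K1H29.BI.Dev
import Pool.Agent.K1H29.BI.Shell
import Pool.Agent.K1H6.BI.Time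
import Pool.Agent.K1H74.BI.TimeAs
import Pool.Agent.K1H74.BI.SB
import Pool.Agent.K1H31.BI.Inner
import Pool.Agent.K1H13.BI.Spread

/-!
# Branching internal DLA on `Z^3`: all pieces together
-/

namespace Pool.Agent.K1H2.BI

open MeasureTheory ProbabilityTheory Filter
open scoped ENNReal Topology BigOperators

universe u

theorem p_TRAJ : S_TRAJ := K1H99.BI.t_TRAJ K1H11.BI.t_PATH
theorem p_FRZ : S_FRZ := K1H99.BI.t_FRZ
theorem p_MEAS : S_MEAS.{u} := K1H8.BI.t_MEAS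
theorem p_ONE : S_ONE := K1H94.BI.t_ONE.{0} K1H11.BI.t_PATH K1H26.BI.t_KIDS p_MEAS.{0}
theorem p_ONE4 : S_ONE4 := K1H96.BI.t_ONE4.{0} K1H11.BI.t_PATH K1H26.BI.t_KIDS p_MEAS.{0}
theorem p_LYA : S_LYA.{u} := K1H96.BI.t_LYA p_MEAS p_FRZ p_TRAJ
theorem p_SECM : S_SECM.{u} := K1H28.BIW.t_SECM K1H26.BI.t_KIDS
theorem p_WALK : S_WALK.{u} := K1H28.BIW.t_WALK K1H26.BI.t_KIDS t_LEVY
theorem p_LAT : S_LAT := K1H92.BI.t_LAT
theorem p_DEV : S_DEV := K1H29.BI.t_DEV p_LAT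
theorem p_SHELL : S_SHELL := K1H29.BI.t_SHELL p_LAT
theorem p_TIME : S_TIME.{u} := K1H6.BI.t_TIME p_MEAS p_ONE p_LYA p_FRZ p_TRAJ p_LAT
theorem p_TIMEAS : S_TIMEAS.{u} := K1H74.BI.t_TIMEAS p_TIME p_TRAJ
theorem p_SB : S_SB.{u} := K1H74.BI.t_SB K1H26.BI.t_KIDS
theorem p_INNER : S_INNER.{u} := K1H31.BI.t_INNER p_WALK p_TIMEAS p_DEV p_TRAJ
theorem p_SPREAD : S_SPREAD.{u} :=
  K1H13.BI.t_SPREAD p_LYA p_ONE p_WALK p_SECM p_TIME p_TRAJ p_FRZ p_MEAS p_INNER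
theorem p_HIGHP : S_HIGHP.{u} :=
  K1H92.BI.t_HIGHP p_LYA p_ONE p_ONE4 p_SB p_SECM p_SHELL p_TRAJ p_FRZ p_MEAS p_INNER
theorem p_FINAL : S_FINAL.{u} := t_FINAL p_INNER p_SPREAD t_LEVY K1H8.BI.t_AGG p_DEV

instance (ν : PMF ℕ) : IsProbabilityMeasure (law ν) := by
  unfold law
  have : IsProbabilityMeasure (volume.restrict (Set.Icc (0 : ℝ) 1)) := ⟨by simp⟩
  have h2 : IsProbabilityMeasure (kids ν).toMeasure := PMF.toMeasure.isProbabilityMeasure _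
  infer_instance

/-- Independent instructions exist: the coordinates of the product space. -/
theorem drawn_exists (ν : PMF ℕ) :
    Drawn (Measure.infinitePi fun _ : ℕ => law ν) ν (fun n (ω : ℕ → Inst) => ω n) where
  meas n := measurable_pi_apply n
  law n := (measurePreserving_eval_infinitePi (fun _ : ℕ => law ν) n).map_eq
  indep := iIndepFun_infinitePi (P := fun _ : ℕ => law ν) (X := fun _ x => x)
      (fun _ => measurable_id)

end Pool.Agent.K1H2.BI
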