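import Pool.Agent.K1H2.BI.Defs

/-!
# Branching internal DLA on `Z^3`: the pieces of the proof
-/

namespace Pool.Agent.K1H2.BI

open MeasureTheory ProbabilityTheory Filter
open scoped ENNReal Topology BigOperators

universe u

/-- the sequence of instructions at `ω` -/
abbrev at' {Ω : Type u} (ins : ℕ → Ω → Inst) (ω : Ω) : ℕ → Inst := fun j => ins j ω

/-- PATH: one event, pathwise. -/
def S_PATH : Prop := ∀ (s : State) (i : Inst), Inv s →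
  who s i ∈ s.L ∧
  Inv (event s i) ∧
  s.A ⊆ (event s i).A ∧
  S (event s i) = S s + i.1.length - 1 ∧
  ((event s i).t = s.t ∨ ((event s i).t = s.t + 1 ∧ (event s i).L = [0])) ∧
  (∀ b : ℝ, 0 ≤ b → Y b (event s i) =
    Y b s - phi b (who s i) + (i.1.map fun e => phi b (who s i + stepOf e)).sum) ∧
  (∀ (R : ℝ) (m : ℕ), 0 ≤ R → G R m (event s i) ≤
    G R m s - pot R (who s i) + (i.1.map fun e => pot R (who s i + stepOf e)).sum)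

/-- FRZ: the stopped process. -/
def S_FRZ : Prop := ∀ (Fr : Set State) (ins : ℕ → Inst) (n k : ℕ), ∃ j ≤ k,
  frz Fr ins n k = (X ins (n + j), n + j) ∧ (j < k → X ins (n + j) ∈ Fr) ∧
  ∀ i < j, X ins (n + i) ∉ Fr

/-- TRAJ: the trajectories. -/
def S_TRAJ : Prop := ∀ ins : ℕ → Inst,
  (∀ n, Inv (X ins n)) ∧
  (∀ n, S (X ins n) = ∑ j ∈ Finset.range n, (((ins j).1.length : ℝ) - 1)) ∧
  (∀ n k, n ≤ k → (X ins n).A ⊆ (X ins k).A ∧ (X ins n).t ≤ (X ins k).t) ∧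
  (∀ n, (X ins (n + 1)).t ≤ (X ins n).t + 1) ∧
  (∀ t n, 1 ≤ t → t ≤ (X ins n).t →
    T ins t ≤ n ∧ (X ins (T ins t)).t = t ∧ (X ins (T ins t)).L = [0] ∧
    agg ins t ⊆ (X ins n).A ∧ ∀ k < T ins t, (X ins k).t < t)

/-- MEAS: measurability. -/
def S_MEAS : Prop := Countable State ∧ (Measurable fun p : State × Inst => event p.1 p.2) ∧
  ∀ (Ω : Type u) [MeasurableSpace Ω] (P : Measure Ω) (ν : PMF ℕ) (ins : ℕ → Ω → Inst),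
    Drawn P ν ins → (∀ n, Measurable[past ins n] fun ω => X (at' ins ω) n) ∧
      (∀ n, past ins n ≤ (inferInstance : MeasurableSpace Ω)) ∧
      (∀ n m, n ≤ m → past ins n ≤ past ins m) ∧
      ∀ (Fr : Set State) (n k : ℕ), Measurable[past ins (n + k)] fun ω => frz Fr (at' ins ω) n k

/-- KIDS: moments of the list of the steps of the children. -/
def S_KIDS : Prop := ∀ ν : PMF ℕ, Crit ν →
  0 < var ν ∧
  Integrable (fun l : List Dir => (l.length : ℝ) ^ 2) (kids ν).toMeasure ∧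
  ∫ l : List Dir, (l.length : ℝ) ∂(kids ν).toMeasure = 1 ∧
  ∫ l : List Dir, ((l.length : ℝ) - 1) ^ 2 ∂(kids ν).toMeasure = var ν ∧
  ∀ h : Dir → ℝ, Integrable (fun l : List Dir => (l.map h).sum) (kids ν).toMeasure ∧
    ∫ l : List Dir, (l.map h).sum ∂(kids ν).toMeasure = (∑ e, h e) / 6

/-- ONE: the three one-step inequalities. -/
def S_ONE : Prop := ∀ ν : PMF ℕ, Crit ν →
  (∀ (s : State) (c : ℝ), Inv s →
    ∫⁻ i, ENNReal.ofReal ((S (event s i) - c) ^ 2) ∂(law ν)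
      ≤ ENNReal.ofReal ((S s - c) ^ 2) + ENNReal.ofReal (var ν)) ∧
  (∃ C : ℝ, 0 < C ∧ ∀ (s : State) (b : ℝ) (n : ℕ), Inv s → 1 ≤ b →
    ∫⁻ i, ENNReal.ofReal ((max (Y b (event s i) - ((n + 1 : ℕ) : ℝ)) 0) ^ 2) ∂(law ν)
      ≤ ENNReal.ofReal ((max (Y b s - (n : ℝ)) 0) ^ 2) + ENNReal.ofReal (C * b ^ 2)) ∧
  (∀ (s : State) (c R : ℝ) (m : ℕ), Inv s → 0 ≤ R → s.t < m → (∀ x ∈ s.A, len x ≤ R) →
    ∫⁻ i, ENNReal.ofReal ((S (event s i) - c) ^ 2 + var ν * G R m (event s i)) ∂(law ν)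
      ≤ ENNReal.ofReal ((S s - c) ^ 2 + var ν * G R m s))

/-- LYA: iteration of one-step inequalities for the stopped process. -/
def S_LYA : Prop := ∀ (Ω : Type u) [MeasurableSpace Ω] (P : Measure Ω) [IsProbabilityMeasure P]
  (ν : PMF ℕ) (ins : ℕ → Ω → Inst), Drawn P ν ins →
  ∀ (Fr : Set State) (n : ℕ) (H : Set Ω), MeasurableSet[past ins n] H →
  ∀ (V : State → State × ℕ → ℝ≥0∞) (C : ℝ≥0∞),
    (∀ s₀ s k, Inv s → s ∉ Fr → ∫⁻ i, V s₀ (event s i, k + 1) ∂(law ν) ≤ V s₀ (s, k) + C) →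
    ∀ k : ℕ, ∫⁻ ω in H, V (X (at' ins ω) n) (frz Fr (at' ins ω) n k) ∂P
      ≤ ∫⁻ ω in H, V (X (at' ins ω) n) (X (at' ins ω) n, n) ∂P + k * C

/-- WALK: the random walk. -/
def S_WALK : Prop := ∀ (Ω : Type u) [MeasurableSpace Ω] (P : Measure Ω) [IsProbabilityMeasure P]
  (ν : PMF ℕ) (ins : ℕ → Ω → Inst), Crit ν → Drawn P ν ins →
  (∀ᵐ ω ∂P, ∀ K : ℝ, ∃ᶠ n : ℕ in atTop,
    ∑ j ∈ Finset.range n, (((ins j ω).1.length : ℝ) - 1) ≤ -K * Real.sqrt n) ∧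
  (∀ K : ℝ, ∃ p : ℝ, 0 < p ∧ ∀ (m : ℕ) (H : Set Ω), MeasurableSet[past ins m] H →
    ∀ᶠ n : ℕ in atTop, p * P.real H ≤
      P.real (H ∩ {ω | K * Real.sqrt n ≤ ∑ j ∈ Finset.range n, (((ins j ω).1.length : ℝ) - 1)})) ∧
  (∀ K : ℝ, ∃ p : ℝ, 0 < p ∧ ∀ (m : ℕ) (H : Set Ω), MeasurableSet[past ins m] H →
    ∀ᶠ n : ℕ in atTop, p * P.real H ≤
      P.real (H ∩ {ω | ∑ j ∈ Finset.range n, (((ins j ω).1.length : ℝ) - 1) ≤ -K * Real.sqrt n}))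

/-- SECM: second moment of the random walk. -/
def S_SECM : Prop := ∀ (Ω : Type u) [MeasurableSpace Ω] (P : Measure Ω) [IsProbabilityMeasure P]
  (ν : PMF ℕ) (ins : ℕ → Ω → Inst), Crit ν → Drawn P ν ins → ∀ (n : ℕ) (lam : ℝ), 0 < lam →
    P.real {ω | lam ≤ |∑ j ∈ Finset.range n, (((ins j ω).1.length : ℝ) - 1)|}
      ≤ n * var ν / lam ^ 2

/-- LAT: lattice points in balls. -/
def S_LAT : Prop :=
  (∀ (A : Finset Site) (ρ : ℝ), 1 ≤ ρ → (∀ z : Site, len z < ρ → z ∈ A) →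
    4 / 3 * Real.pi * (ρ - 1) ^ 3 ≤ A.card) ∧
  (∀ (A : Finset Site) (ρ : ℝ), 0 ≤ ρ → (∀ z ∈ A, len z < ρ) →
    (A.card : ℝ) ≤ 4 / 3 * Real.pi * (ρ + 1) ^ 3)

/-- DEV: deviations from cardinalities. -/
def S_DEV : Prop :=
  (∀ K : ℝ, ∃ K' : ℝ, 0 < K' ∧ ∀ᶠ t : ℕ in atTop, ∀ A : Finset Site,
    (A.card : ℝ) ≤ t - K' * (t : ℝ) ^ (5 / 6 : ℝ) → K * Real.sqrt (rad t) ≤ devI A t) ∧
  (∀ K : ℝ, ∃ K' : ℝ, 0 < K' ∧ ∀ᶠ t : ℕ in atTop, ∀ A : Finset Site,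
    (t : ℝ) + K' * (t : ℝ) ^ (5 / 6 : ℝ) ≤ A.card → K * Real.sqrt (rad t) ≤ devO A t) ∧
  (∀ (t : ℕ) (A : Finset Site), (∃ z ∈ A, 2 * rad t ≤ len z) → rad t ≤ devO A t)

/-- TIME: few launches in a given number of events. -/
def S_TIME : Prop := ∀ ν : PMF ℕ, Crit ν → ∃ c C : ℝ, 0 < c ∧ 0 < C ∧
  ∀ (Ω : Type u) [MeasurableSpace Ω] (P : Measure Ω) [IsProbabilityMeasure P]
    (ins : ℕ → Ω → Inst), Drawn P ν ins → ∀ m : ℕ, 1 ≤ m →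
    P.real {ω | m ≤ (X (at' ins ω) ⌊c * (m : ℝ) ^ (5 / 3 : ℝ)⌋₊).t} ≤ C * (m : ℝ) ^ (-(1 / 3) : ℝ)

/-- TIMEAS: the same almost surely. -/
def S_TIMEAS : Prop := ∀ ν : PMF ℕ, Crit ν → ∃ c : ℝ, 0 < c ∧
  ∀ (Ω : Type u) [MeasurableSpace Ω] (P : Measure Ω) [IsProbabilityMeasure P]
    (ins : ℕ → Ω → Inst), Drawn P ν ins →
    ∀ᵐ ω ∂P, ∀ᶠ m : ℕ in atTop, ∀ n : ℕ, m ≤ (X (at' ins ω) n).t → c * (m : ℝ) ^ (5 / 3 : ℝ) ≤ n

/-- INNER: inner deviations, almost surely. -/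
def S_INNER : Prop := ∀ (Ω : Type u) [MeasurableSpace Ω] (P : Measure Ω) [IsProbabilityMeasure P]
  (ν : PMF ℕ) (ins : ℕ → Ω → Inst), Crit ν → Drawn P ν ins →
  (∀ᵐ ω ∂P, ∀ t : ℕ, 1 ≤ t → ∃ n, (X (at' ins ω) n).t = t) ∧
  ∀ᵐ ω ∂P, ∀ K : ℝ, ∃ᶠ t : ℕ in atTop,
    K * Real.sqrt (rad t) ≤ devI (agg (at' ins ω) t) t

/-- SPREAD: the main estimate for outer deviations. For large `t` the stopped walk is above
`K * t ^ (5/6)` (below `-K * t ^ (5/6)`) with conditional probability bounded below. -/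
def S_SPREAD : Prop := ∀ (Ω : Type u) [MeasurableSpace Ω] (P : Measure Ω) [IsProbabilityMeasure P]
  (ν : PMF ℕ) (ins : ℕ → Ω → Inst), Crit ν → Drawn P ν ins →
  ∀ K : ℝ, ∃ p : ℝ, 0 < p ∧ ∀ (m : ℕ) (H : Set Ω), MeasurableSet[past ins m] H →
    ∀ᶠ t : ℕ in atTop,
    p * P.real H ≤ P.real (H ∩ {ω | (∃ z ∈ agg (at' ins ω) t, 2 * rad t ≤ len z) ∨
      (t : ℝ) + K * (t : ℝ) ^ (5 / 6 : ℝ) ≤ (agg (at' ins ω) t).card}) ∧
    p * P.real H ≤ P.real (H ∩ {ω | (∃ z ∈ agg (at' ins ω) t, 2 * rad t ≤ len z) ∨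
      ((agg (at' ins ω) t).card : ℝ) ≤ (t : ℝ) - K * (t : ℝ) ^ (5 / 6 : ℝ)})

/-- AGG: measurability of the aggregate. -/
def S_AGG : Prop := ∀ (Ω : Type u) [MeasurableSpace Ω] (P : Measure Ω) (ν : PMF ℕ)
  (ins : ℕ → Ω → Inst), Drawn P ν ins → ∀ (t : ℕ) (B : Set (Finset Site)),
    MeasurableSet[⨆ n, past ins n] {ω | agg (at' ins ω) t ∈ B}

/-- LEVY: events whose conditional probabilities given the past are bounded below occur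
infinitely often. -/
def S_LEVY : Prop := ∀ (Ω : Type u) [MeasurableSpace Ω] (P : Measure Ω) [IsProbabilityMeasure P]
  (ν : PMF ℕ) (ins : ℕ → Ω → Inst), Drawn P ν ins →
  ∀ (E : ℕ → Set Ω), (∀ t, MeasurableSet[⨆ n, past ins n] (E t)) → ∀ p : ℝ, 0 < p →
    (∀ (m : ℕ) (H : Set Ω), MeasurableSet[past ins m] H →
      ∀ᶠ t : ℕ in atTop, p * P.real H ≤ P.real (H ∩ E t)) →
    ∀ᵐ ω ∂P, ∃ᶠ t : ℕ in atTop, ω ∈ E t

end Pool.Agent.K1H2.BI
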