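import Pool.Agent.K1H2.BI.Stm

/-!
# Branching internal DLA on `Z^3`: deviations at every time, with high probability
-/

namespace Pool.Agent.K1H2.BI

open MeasureTheory ProbabilityTheory Filter
open scoped ENNReal Topology BigOperators

universe u

/-- ONE4: one-step inequality for the sum of the squared norms minus the number of events. -/
def S_ONE4 : Prop := ∀ ν : PMF ℕ, Crit ν → ∃ C : ℝ, 0 < C ∧
  ∀ (s : State) (R : ℝ) (n : ℕ), Inv s → 1 ≤ R → (∀ x ∈ s.A, len x ≤ R) →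
    ∫⁻ i, ENNReal.ofReal ((Y ((R + 1) ^ 2) (event s i) - ((n + 1 : ℕ) : ℝ)) ^ 2) ∂(law ν)
      ≤ ENNReal.ofReal ((Y ((R + 1) ^ 2) s - (n : ℝ)) ^ 2) + ENNReal.ofReal (C * R ^ 4)

/-- SB: small balls for the random walk. -/
def S_SB : Prop := ∀ (Ω : Type u) [MeasurableSpace Ω] (P : Measure Ω) [IsProbabilityMeasure P]
  (ν : PMF ℕ) (ins : ℕ → Ω → Inst), Crit ν → Drawn P ν ins → ∀ η : ℝ, 0 < η → ∃ ε : ℝ, 0 < ε ∧
    ∀ᶠ n : ℕ in atTop,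
      P.real {ω | |∑ j ∈ Finset.range n, (((ins j ω).1.length : ℝ) - 1)| ≤ ε * Real.sqrt n} ≤ η

/-- SHELL: sets that are close to a ball. -/
def S_SHELL : Prop := ∃ (q : ℕ → ℝ) (c C : ℝ), 0 < c ∧ 0 < C ∧
  (∀ᶠ t : ℕ in atTop, c * (t : ℝ) ^ (5 / 3 : ℝ) ≤ q t ∧ q t ≤ C * (t : ℝ) ^ (5 / 3 : ℝ)) ∧
  ∀ᶠ t : ℕ in atTop, ∀ A : Finset Site, ∀ δ : ℝ, 0 ≤ δ → δ ≤ Real.sqrt (rad t) →
    devI A t < δ → devO A t < δ →
    (∀ x ∈ A, len x ≤ 2 * rad t) ∧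
    |∑ x ∈ A, nsq x - q t| ≤ C * (t : ℝ) ^ (3 / 2 : ℝ) ∧
    |(A.card : ℝ) - t| ≤ C * (δ + 1) * (t : ℝ) ^ (2 / 3 : ℝ)

/-- HIGHP: at every large time one of the deviations is at least a constant times the square root
of the radius, with probability close to one. -/
def S_HIGHP : Prop := ∀ (Ω : Type u) [MeasurableSpace Ω] (P : Measure Ω) [IsProbabilityMeasure P]
  (ν : PMF ℕ) (ins : ℕ → Ω → Inst), Crit ν → Drawn P ν ins → ∀ η : ℝ, 0 < η → ∃ ε : ℝ, 0 < ε ∧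
    ∀ᶠ t : ℕ in atTop, 1 - η ≤ P.real {ω |
      ε * Real.sqrt (rad t) ≤ devI (agg (at' ins ω) t) t ∨
      ε * Real.sqrt (rad t) ≤ devO (agg (at' ins ω) t) t}

end Pool.Agent.K1H2.BI
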